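import Pool.Agent.Run7.h697.Psi

/-!
# The local maximal partition carrying a nonzero Fourier coefficient is not unique

For every nontrivial continuous additive character `ψ` of `ℚ_3` the split group `Sp_16(ℚ_3)` has an
irreducible admissible (in fact supercuspidal, of depth one half) representation `π` for which
`𝔭^m(π)` contains the two partitions `[12, 2, 2]` and `[10, 6]`.

The representation is compactly induced from `{±1} K⁺`, where `K⁺` is the pro-unipotent radical of
the parahoric subgroup with reductive quotient `GL_8`, and the character of `K⁺` is given by an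
element `Γ = [[0, B], [A/3, 0]]` with `A`, `B` symmetric and `BA` modulo `3` with irreducible
characteristic polynomial.
-/

set_option autoImplicit false

namespace Pool.Agent.Results.MP_abcfcd_nt.LocalNonUniqueness

open Run7.h697 Matrix

/-- The negative answer to the local question: an irreducible admissible representation of
`Sp_16(ℚ_3)` with two distinct maximal partitions. -/
theorem result (ψ : AddChar ℚ_[3] Circle) (hc : Continuous ψ) (hne : ψ ≠ 1) :
    ∃ (V : Type) (_ : AddCommGroup V) (_ : Module ℂ V)
      (π : Representation ℂ (symplecticGroup (Fin 8) ℚ_[3]) V),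
      IrredAdm π ∧ ∃ q r : Nat.Partition (2 * 8), q.parts = {12, 2, 2} ∧ r.parts = {10, 6} ∧
        q ≠ r ∧ q ∈ maxPart ψ π ∧ r ∈ maxPart ψ π := by
  obtain ⟨c, hc0, hψ⟩ := exists_shift hc hne
  obtain ⟨h1, h2⟩ := mem_max hψ
  rw [scale_max hc0] at h1 h2
  exact ⟨D8.Sp (ψ.mulShift c), inferInstance, inferInstance, D8.rep (ψ.mulShift c),
    { irred := D8.irreducible (by norm_num) hψ
      smooth := D8.smooth hψ
      adm := D8.admissible (by norm_num) hψ }, P1, P2, rfl, rfl, P1_ne_P2, h1, h2⟩

end Pool.Agent.Results.MP_abcfcd_nt.LocalNonUniqueness
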